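import Mathlib

set_option autoImplicit false
open Finset Polynomial

namespace Pool.Agent.H.MP_a1ab69_an

variable {F : Type} [Field F]

def Pn (n : ℕ) (a : F) (f : F → F) : Prop :=
  ∃ p : F[X], p.natDegree ≤ n ∧ p.coeff n = a ∧ ∀ t, p.eval t = f t

lemma Pn.add {n : ℕ} {a b : F} {f g : F → F} : Pn n a f → Pn n b g → Pn n (a + b) fun t => f t + g t
  | ⟨p, h1, h2, h3⟩, ⟨r, k1, k2, k3⟩ =>
    ⟨p + r, natDegree_add_le_of_degree_le h1 k1, by simp [h2, k2], by simp [h3, k3]⟩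

lemma Pn.sub {n : ℕ} {a b : F} {f g : F → F} : Pn n a f → Pn n b g → Pn n (a - b) fun t => f t - g t
  | ⟨p, h1, h2, h3⟩, ⟨r, k1, k2, k3⟩ =>
    ⟨p - r, (natDegree_sub_le p r).trans (max_le h1 k1), by simp [h2, k2], by simp [h3, k3]⟩

lemma Pn.mul {m n : ℕ} {a b : F} {f g : F → F} :
    Pn m a f → Pn n b g → Pn (m + n) (a * b) fun t => f t * g t
  | ⟨p, h1, h2, h3⟩, ⟨r, k1, k2, k3⟩ => ⟨p * r, natDegree_mul_le.trans (add_le_add h1 k1),
    by rw [coeff_mul_add_eq_of_natDegree_le h1 k1, h2, k2], by simp [h3, k3]⟩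

lemma Pn.pow {n : ℕ} {a : F} {f : F → F} (k : ℕ) : Pn n a f → Pn (k * n) (a ^ k) fun t => f t ^ k
  | ⟨p, h1, h2, h3⟩ => ⟨p ^ k, natDegree_pow_le.trans (Nat.mul_le_mul_left k h1),
    by rw [coeff_pow_of_natDegree_le h1, h2], by simp [h3]⟩

lemma Pn.cm {n : ℕ} {a : F} {f : F → F} (c : F) : Pn n a f → Pn n (c * a) fun t => c * f t
  | ⟨p, h1, h2, h3⟩ => ⟨C c * p, (natDegree_C_mul_le c p).trans h1, by simp [h2], by simp [h3]⟩

lemma Pn.up {n : ℕ} {a : F} {f : F → F} : Pn n a f → Pn (n + 1) 0 f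
  | ⟨p, h1, _, h3⟩ => ⟨p, by omega, coeff_eq_zero_of_natDegree_lt (by omega), h3⟩

lemma Pn.const (n : ℕ) (c : F) : Pn (n + 1) 0 fun _ => c :=
  ⟨C c, by simp, by simp, by simp⟩

lemma Pn.lin (y v : F) : Pn 1 v fun t => y + t * v :=
  ⟨C y + X * C v, by compute_degree, by simp, fun t => by
    rw [eval_add, eval_mul, eval_C, eval_C, eval_X]⟩

lemma Pn.card [Fintype F] {n : ℕ} {a : F} {f : F → F} (h : Pn n a f) (ha : a ≠ 0) {P : F → Prop}
    [DecidablePred P] (hP : ∀ t, P t → f t = 0) : #{t | P t} ≤ n := by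
  classical
  obtain ⟨p, h1, h2, h3⟩ := h
  have p0 : p ≠ 0 := fun e => ha (by simp [← h2, e])
  refine le_trans (card_le_card (t := p.roots.toFinset) fun t ht => ?_)
    ((Multiset.toFinset_card_le _).trans ((card_roots' p).trans h1))
  rw [Multiset.mem_toFinset, mem_roots p0, IsRoot, h3]
  exact hP t (mem_filter.1 ht).2

lemma coef6 [Fintype F] (hq : 6 < Fintype.card F) {a6 a5 a4 a3 a2 a1 a0 : F}
    (h : ∀ t : F, a6 * t ^ 6 + a5 * t ^ 5 + a4 * t ^ 4 + a3 * t ^ 3 + a2 * t ^ 2 + a1 * t + a0 = 0) :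
    a6 = 0 ∧ a5 = 0 ∧ a4 = 0 ∧ a3 = 0 ∧ a2 = 0 ∧ a1 = 0 ∧ a0 = 0 := by
  have e : (C a6 * X ^ 6 + C a5 * X ^ 5 + C a4 * X ^ 4 + C a3 * X ^ 3 + C a2 * X ^ 2 + C a1 * X +
      C a0 : F[X]) = 0 := eq_zero_of_natDegree_lt_card_of_eval_eq_zero' _ univ
    (fun t _ => by simpa using h t) (lt_of_le_of_lt (by compute_degree) hq)
  have := fun k => congrArg (coeff · k) e
  exact ⟨by simpa using this 6, by simpa using this 5, by simpa using this 4, by simpa using this 3,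
    by simpa [coeff_X] using this 2, by simpa using this 1, by simpa using this 0⟩

lemma line [Fintype F] {M : Type} [AddCommGroup M] [Module F M] [DecidableEq M] {S A : Finset M}
    (v : M) {D : ℕ} (h1 : ∀ y ∈ S, ∀ t : F, y + t • v ∈ A)
    (h2 : ∀ y ∈ A, #{t : F | y + t • v ∈ S} ≤ D) : Fintype.card F * #S ≤ D * #A := by
  calc Fintype.card F * #S = ∑ _t : F, #S := by simp
    _ ≤ ∑ t : F, #{y ∈ A | y + t • v ∈ S} := sum_le_sum fun t _ =>
      card_le_card_of_injOn (fun y => y + (-t) • v) (fun y hy => by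
        simpa using ⟨by simpa using h1 y hy (-t), hy⟩) fun _ _ _ _ e => add_right_cancel e
    _ = ∑ y ∈ A, #{t : F | y + t • v ∈ S} := by
      simp only [card_filter]
      exact sum_comm
    _ ≤ D * #A := by
      rw [mul_comm]
      exact sum_le_card_nsmul _ _ _ h2

lemma line' [Fintype F] {M : Type} [AddCommGroup M] [Module F M] [DecidableEq M] {S A : Finset M}
    (v : M) {D K n : ℕ} (hA : #A ≤ K * Fintype.card F ^ (n + 1))
    (h1 : ∀ y ∈ S, ∀ t : F, y + t • v ∈ A)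
    (h2 : ∀ y ∈ A, #{t : F | y + t • v ∈ S} ≤ D) : #S ≤ D * K * Fintype.card F ^ n :=
  Nat.le_of_mul_le_mul_left (((line v h1 h2).trans (Nat.mul_le_mul_left D hA)).trans_eq (by ring))
    Fintype.card_pos

abbrev V (F : Type) := Fin 5 → F

def b (x y : V F) : F := x 0 * y 0 + x 1 * y 1 + x 2 * y 2 - x 3 * y 3
def P (x : V F) : F := x 0 ^ 3 + x 1 ^ 3 + x 2 ^ 3
def Z (x : V F) : Prop := x 0 = 0 ∧ x 1 = 0 ∧ x 2 = 0 ∧ x 3 = 0

lemma perp1 {u : V F} (h : ¬ Z u) : ∃ v, b u v ≠ 0 := by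
  by_contra! c
  exact h ⟨by simpa [b] using c ![1, 0, 0, 0, 0], by simpa [b] using c ![0, 1, 0, 0, 0],
    by simpa [b] using c ![0, 0, 1, 0, 0], by simpa [b] using c ![0, 0, 0, 1, 0]⟩

lemma perp2 (h2 : (2 : F) ≠ 0) {u : V F} (h : ¬ Z u) : ∃ v, b u v = 0 ∧ b v v ≠ 0 := by
  by_contra! c
  have a1 := c ![u 1, -u 0, 0, 0, 0] (by simp [b]; ring)
  have a2 := c ![u 2, 0, -u 0, 0, 0] (by simp [b]; ring)
  have a3 := c ![0, u 2, -u 1, 0, 0] (by simp [b]; ring)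
  have a4 := c ![u 3, 0, 0, u 0, 0] (by simp [b]; ring)
  simp [b] at a1 a2 a3 a4
  have b0 : u 0 = 0 := mul_self_eq_zero.1 (mul_left_cancel₀ h2 (by linear_combination a1 + a2 - a3))
  refine h ⟨b0, mul_self_eq_zero.1 ?_, mul_self_eq_zero.1 ?_, mul_self_eq_zero.1 ?_⟩
  · simpa [b0] using a1
  · simpa [b0] using a2
  · simpa [b0] using a4

lemma perp3 (h2 : (2 : F) ≠ 0) {x y : V F} (hx : ¬ Z x) (hy : ∀ a : F, ¬ Z (y - a • x)) :
    (∃ v, b x v = 0 ∧ b y v ≠ 0) ∧ ((∃ v, b x v = 0 ∧ b y v = 0 ∧ b v v ≠ 0) ∨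
      (b x x = 0 ∧ b x y = 0 ∧ b y y = 0)) := by
  obtain ⟨B, hB⟩ : ∃ B : LinearMap.BilinForm F (Fin 4 → F), ∀ x y, B x y =
      x 0 * y 0 + x 1 * y 1 + x 2 * y 2 - x 3 * y 3 :=
    ⟨Matrix.toBilin' (Matrix.diagonal ![1, 1, 1, -1]), fun x y => by
      simp [Matrix.toBilin'_apply', Matrix.mulVec_diagonal, dotProduct, Fin.sum_univ_four]; ring⟩
  have sy : ∀ x y, B x y = B y x := fun x y => by rw [hB, hB]; ring
  have rf : B.IsRefl := fun x y e => by rw [sy, e]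
  have nd : B.Nondegenerate := by
    have : ∀ x, (∀ y, B x y = 0) → x = 0 := fun x c => by
      ext i
      have := c (Pi.single i 1)
      fin_cases i <;> simpa [hB] using this
    exact ⟨this, fun x c => this x fun y => by rw [sy]; exact c y⟩
  obtain ⟨x', hx'⟩ : ∃ x' : Fin 4 → F, x' = ![x 0, x 1, x 2, x 3] := ⟨_, rfl⟩
  obtain ⟨y', hy'⟩ : ∃ x' : Fin 4 → F, x' = ![y 0, y 1, y 2, y 3] := ⟨_, rfl⟩
  have x0 : x' ≠ 0 := fun e => hx (by simpa [hx', Z] using e)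
  have y0 : ∀ a : F, a • x' ≠ y' := fun a e => hy a (by
    simp only [hx', hy', funext_iff, Fin.forall_fin_succ] at e
    simpa [Z, sub_eq_zero, eq_comm (b := y _)] using e)
  constructor
  · by_contra! c
    have : y' ∈ B.orthogonal (B.orthogonal (Submodule.span F {x'})) := fun v hv => by
      have := c ![v 0, v 1, v 2, v 3, 0] (by
        simpa [b, hB, hx'] using hv x' (Submodule.mem_span_singleton_self _))
      rw [sy]
      simpa [b, hB, hy'] using this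
    rw [B.orthogonal_orthogonal nd rf, Submodule.mem_span_singleton] at this
    exact this.elim y0
  refine or_iff_not_imp_left.2 fun c => ?_
  push Not at c
  obtain ⟨W, hW⟩ : ∃ W, W = Submodule.span F (Set.range ![x', y']) := ⟨_, rfl⟩
  have m1 : x' ∈ W := hW ▸ Submodule.subset_span ⟨0, rfl⟩
  have m2 : y' ∈ W := hW ▸ Submodule.subset_span ⟨1, rfl⟩
  have q : ∀ v ∈ B.orthogonal W, B v v = 0 := fun v hv => by
    simpa [b, hB] using c ![v 0, v 1, v 2, v 3, 0] (by simpa [b, hB, hx'] using hv x' m1)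
      (by simpa [b, hB, hy'] using hv y' m2)
  have le : B.orthogonal W ≤ W := fun v hv => by
    rw [← B.orthogonal_orthogonal nd rf W]
    intro w hw
    have a := q _ (add_mem hv hw)
    simp only [map_add, LinearMap.add_apply, q v hv, q w hw, sy v w] at a
    exact mul_left_cancel₀ h2 (by linear_combination a)
  have fr : Module.finrank F W = 2 := by
    rw [hW, finrank_span_eq_card ((LinearIndependent.pair_iff' x0).2 y0)]
    simp
  have eq := Submodule.eq_of_le_of_finrank_eq le (by simp [B.finrank_orthogonal nd, fr])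
  have k : ∀ v ∈ W, ∀ w ∈ W, B v w = 0 := fun v hv w hw => (eq.ge hw) v hv
  exact ⟨by simpa [b, hB, hx'] using k _ m1 _ m1, by simpa [b, hB, hx', hy'] using k _ m1 _ m2,
    by simpa [b, hB, hy'] using k _ m2 _ m2⟩

lemma hess (h2 : (2 : F) ≠ 0) (h3 : (3 : F) ≠ 0) {k A B C E : F} (e6 : k * A ^ 2 - A ^ 3 = 0)
    (e4 : k * (9 * B ^ 2 + 6 * A * C) - (3 * A ^ 2 * C + 12 * A * B ^ 2) = 0)
    (e3 : k * (2 * A * E + 18 * B * C) - (12 * A * B * C + 8 * B ^ 3) = 0)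
    (e2 : k * (9 * C ^ 2 + 6 * B * E) - (3 * A * C ^ 2 + 12 * B ^ 2 * C) = 0)
    (e0 : k * E ^ 2 - C ^ 3 = 0) : A * C = B ^ 2 ∧ A * E = B * C ∧ B * E = C ^ 2 := by
  rcases eq_or_ne A 0 with rfl | h
  · have hB : B = 0 := pow_eq_zero_iff (n := 4) (by norm_num) |>.1 (mul_left_cancel₀
      (pow_ne_zero 3 h2) (by linear_combination 2 * C * e4 - B * e3))
    subst hB
    have hC : C = 0 := pow_eq_zero_iff (n := 5) (by norm_num) |>.1 (mul_left_cancel₀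
      (pow_ne_zero 2 h3) (by linear_combination E ^ 2 * e2 - 9 * C ^ 2 * e0))
    simp [hC]
  · obtain rfl : k = A := mul_left_cancel₀ (pow_ne_zero 2 h) (by linear_combination e6)
    have a1 : k * C = B ^ 2 := mul_left_cancel₀ (mul_ne_zero h3 h) (by linear_combination e4)
    have a2 : k * E = B * C := mul_left_cancel₀ (mul_ne_zero h2 h)
      (by linear_combination e3 - 8 * B * a1)
    exact ⟨a1, a2, mul_left_cancel₀ h (by linear_combination B * a2 - C * a1)⟩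

lemma star [Fintype F] (hq : 6 < Fintype.card F) (h2 : (2 : F) ≠ 0) (h3 : (3 : F) ≠ 0) {x y : V F}
    (hx : ¬ Z x) (hy : ∀ a : F, ¬ Z (y - a • x)) (q1 : b x x = 0) (q2 : b x y = 0) (q3 : b y y = 0)
    (c : F) : ∃ v, b x v = 0 ∧ b y v = 0 ∧
      c ^ 3 * P v ^ 2 ≠ (x 0 * v 0 ^ 2 + x 1 * v 1 ^ 2 + x 2 * v 2 ^ 2) ^ 3 := by
  by_contra! h
  simp only [b] at q1 q2 q3
  obtain ⟨B, hB⟩ : ∃ B, B = x 0 ^ 2 * y 0 + x 1 ^ 2 * y 1 + x 2 ^ 2 * y 2 := ⟨_, rfl⟩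
  obtain ⟨C, hC⟩ : ∃ C, C = x 0 * y 0 ^ 2 + x 1 * y 1 ^ 2 + x 2 * y 2 ^ 2 := ⟨_, rfl⟩
  obtain ⟨e6, -, e4, e3, e2, -, e0⟩ := coef6 hq (a6 := c ^ 3 * P x ^ 2 - P x ^ 3)
    (a5 := 6 * c ^ 3 * P x * B - 6 * P x ^ 2 * B)
    (a4 := c ^ 3 * (9 * B ^ 2 + 6 * P x * C) - (3 * P x ^ 2 * C + 12 * P x * B ^ 2))
    (a3 := c ^ 3 * (2 * P x * P y + 18 * B * C) - (12 * P x * B * C + 8 * B ^ 3))
    (a2 := c ^ 3 * (9 * C ^ 2 + 6 * B * P y) - (3 * P x * C ^ 2 + 12 * B ^ 2 * C))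
    (a1 := 6 * c ^ 3 * C * P y - 6 * B * C ^ 2) (a0 := c ^ 3 * P y ^ 2 - C ^ 3) fun t => by
      have := h (t • x + y) (by simp only [b, Pi.add_apply, Pi.smul_apply, smul_eq_mul]
                                linear_combination t * q1 + q2)
        (by simp only [b, Pi.add_apply, Pi.smul_apply, smul_eq_mul]; linear_combination t * q2 + q3)
      rw [show P (t • x + y) = P x * t ^ 3 + 3 * B * t ^ 2 + 3 * C * t + P y by
          simp only [P, hB, hC, Pi.add_apply, Pi.smul_apply, smul_eq_mul]; ring,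
        show x 0 * (t • x + y) 0 ^ 2 + x 1 * (t • x + y) 1 ^ 2 + x 2 * (t • x + y) 2 ^ 2 =
          P x * t ^ 2 + 2 * B * t + C by
          simp only [P, hB, hC, Pi.add_apply, Pi.smul_apply, smul_eq_mul]; ring] at this
      linear_combination this
  obtain ⟨a1, a2, a3⟩ := hess h2 h3 e6 e4 e3 e2 e0
  simp only [P, hB, hC] at a1 a2 a3
  obtain ⟨n0, h0⟩ : ∃ n, n = x 1 * y 2 - x 2 * y 1 := ⟨_, rfl⟩
  obtain ⟨n1, h1⟩ : ∃ n, n = x 2 * y 0 - x 0 * y 2 := ⟨_, rfl⟩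
  obtain ⟨n2, h2'⟩ : ∃ n, n = x 0 * y 1 - x 1 * y 0 := ⟨_, rfl⟩
  have g : n0 ^ 2 + n1 ^ 2 + n2 ^ 2 = 0 := by
    rw [h0, h1, h2']
    linear_combination (y 0 * y 0 + y 1 * y 1 + y 2 * y 2) * q1 + x 3 * x 3 * q3 -
      (x 0 * y 0 + x 1 * y 1 + x 2 * y 2 + x 3 * y 3) * q2
  have H : ∀ s t : F, n2 ^ 2 * ((x 0 * s + y 0 * t) * (x 1 * s + y 1 * t)) +
      n1 ^ 2 * ((x 0 * s + y 0 * t) * (x 2 * s + y 2 * t)) +
      n0 ^ 2 * ((x 1 * s + y 1 * t) * (x 2 * s + y 2 * t)) = 0 := fun s t => by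
    rw [h0, h1, h2']
    linear_combination s ^ 2 * a1 + s * t * a2 + t ^ 2 * a3
  have e : n0 * n1 * n2 = 0 := pow_eq_zero_iff (n := 2) (by norm_num) |>.1 (by
    have := H (y 1) (-x 1)
    rw [show x 0 * y 1 + y 0 * -x 1 = n2 by rw [h2']; ring,
      show x 2 * y 1 + y 2 * -x 1 = -n0 by rw [h0]; ring,
      show x 1 * y 1 + y 1 * -x 1 = 0 by ring] at this
    linear_combination -n0 * n2 * this)
  have s2 := H (y 1 - y 0) (x 0 - x 1)
  have s0 := H (y 2 - y 1) (x 1 - x 2)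
  have s1 := H (y 0 - y 2) (x 2 - x 0)
  rw [show x 0 * (y 1 - y 0) + y 0 * (x 0 - x 1) = n2 by rw [h2']; ring,
    show x 1 * (y 1 - y 0) + y 1 * (x 0 - x 1) = n2 by rw [h2']; ring,
    show x 2 * (y 1 - y 0) + y 2 * (x 0 - x 1) = -n0 - n1 by rw [h0, h1]; ring] at s2
  rw [show x 0 * (y 2 - y 1) + y 0 * (x 1 - x 2) = -n1 - n2 by rw [h2', h1]; ring,
    show x 1 * (y 2 - y 1) + y 1 * (x 1 - x 2) = n0 by rw [h0]; ring,
    show x 2 * (y 2 - y 1) + y 2 * (x 1 - x 2) = n0 by rw [h0]; ring] at s0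
  rw [show x 0 * (y 0 - y 2) + y 0 * (x 2 - x 0) = n1 by rw [h1]; ring,
    show x 1 * (y 0 - y 2) + y 1 * (x 2 - x 0) = -n0 - n2 by rw [h0, h2']; ring,
    show x 2 * (y 0 - y 2) + y 2 * (x 2 - x 0) = n1 by rw [h1]; ring] at s1
  have cu : ∀ {n : F}, n ^ 3 = 0 → n = 0 := pow_eq_zero_iff (by norm_num) |>.1
  have σ : n0 + n1 + n2 = 0 := by
    by_contra σ
    apply σ
    rw [cu (n := n0) (mul_left_cancel₀ σ (by linear_combination s0 + n0 * (n1 + n2) * g)),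
      cu (n := n1) (mul_left_cancel₀ σ (by linear_combination s1 + n1 * (n0 + n2) * g)),
      cu (n := n2) (mul_left_cancel₀ σ (by linear_combination s2 + n2 * (n0 + n1) * g))]
    simp
  have z : ∀ n : F, (n - n0) * (n - n1) * (n - n2) = 0 → n = 0 := fun n hn =>
    cu (mul_left_cancel₀ h2 (by
      linear_combination 2 * hn + (2 * n ^ 2 - (n0 + n1 + n2) * n) * σ + n * g + 2 * e))
  have z0 := h0 ▸ z n0 (by ring)
  have z1 := h1 ▸ z n1 (by ring)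
  have z2 := h2' ▸ z n2 (by ring)
  have sq : ∀ {n : F}, n ^ 2 = 0 → n = 0 := pow_eq_zero_iff (by norm_num) |>.1
  have m0 : x 0 * y 3 - x 3 * y 0 = 0 := sq (by
    linear_combination (x 2 * y 0 - x 0 * y 2) * z1 + (x 0 * y 1 - x 1 * y 0) * z2 -
      y 0 ^ 2 * q1 + 2 * x 0 * y 0 * q2 - x 0 ^ 2 * q3)
  have m1 : x 1 * y 3 - x 3 * y 1 = 0 := sq (by
    linear_combination (x 1 * y 2 - x 2 * y 1) * z0 + (x 0 * y 1 - x 1 * y 0) * z2 -
      y 1 ^ 2 * q1 + 2 * x 1 * y 1 * q2 - x 1 ^ 2 * q3)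
  have m2 : x 2 * y 3 - x 3 * y 2 = 0 := sq (by
    linear_combination (x 1 * y 2 - x 2 * y 1) * z0 + (x 2 * y 0 - x 0 * y 2) * z1 -
      y 2 ^ 2 * q1 + 2 * x 2 * y 2 * q2 - x 2 ^ 2 * q3)
  have fin : ∀ i, x i ≠ 0 → x i * y 0 = x 0 * y i → x i * y 1 = x 1 * y i → x i * y 2 = x 2 * y i →
      x i * y 3 = x 3 * y i → False := fun i hi b0 b1 b2 b3 => hy (y i / x i) (by
    simp only [Z, Pi.sub_apply, Pi.smul_apply, smul_eq_mul]
    refine ⟨?_, ?_, ?_, ?_⟩ <;> field_simp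
    exacts [by linear_combination b0, by linear_combination b1, by linear_combination b2,
      by linear_combination b3])
  refine hx ⟨?_, ?_, ?_, ?_⟩ <;> by_contra c
  · exact fin 0 c rfl (by linear_combination z2) (by linear_combination -z1)
      (by linear_combination m0)
  · exact fin 1 c (by linear_combination -z2) rfl (by linear_combination z0)
      (by linear_combination m1)
  · exact fin 2 c (by linear_combination z1) (by linear_combination -z0) rfl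
      (by linear_combination m2)
  · exact fin 3 c (by linear_combination -m0) (by linear_combination -m1)
      (by linear_combination -m2) rfl

lemma hyper [Fintype F] (hq : 6 < Fintype.card F) (h2 : (2 : F) ≠ 0) (h3 : (3 : F) ≠ 0) {i : F}
    (hi : -1 = i * i) (l0 l1 l2 : F) : ∃ v0 v1 v2 : F, v0 ^ 2 + v1 ^ 2 + v2 ^ 2 = 0 ∧
      (l0 * v0 + l1 * v1 + l2 * v2) ^ 3 ≠ v0 ^ 3 + v1 ^ 3 + v2 ^ 3 := by
  by_contra! h
  obtain ⟨α, hα⟩ : ∃ α, α = l0 + i * l2 := ⟨_, rfl⟩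
  obtain ⟨γ, hγ⟩ : ∃ γ, γ = -l0 + i * l2 := ⟨_, rfl⟩
  obtain ⟨e6, e5, -, e3, -⟩ := coef6 hq (a6 := α ^ 3 - 1 - i ^ 3) (a5 := 3 * α ^ 2 * (2 * l1))
    (a4 := 3 * α ^ 2 * γ + 3 * α * (2 * l1) ^ 2 + 3 - 3 * i ^ 3)
    (a3 := (2 * l1) ^ 3 + 6 * α * (2 * l1) * γ - 2 ^ 3)
    (a2 := 3 * (2 * l1) ^ 2 * γ + 3 * α * γ ^ 2 - 3 - 3 * i ^ 3) (a1 := 3 * (2 * l1) * γ ^ 2)
    (a0 := γ ^ 3 + 1 - i ^ 3) fun t => by
      have := h (t ^ 2 - 1) (2 * t) (i * (t ^ 2 + 1)) (by linear_combination -(t ^ 2 + 1) ^ 2 * hi)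
      rw [show l0 * (t ^ 2 - 1) + l1 * (2 * t) + l2 * (i * (t ^ 2 + 1)) =
        α * t ^ 2 + 2 * l1 * t + γ by rw [hα, hγ]; ring] at this
      linear_combination this
  rcases mul_eq_zero.1 e5 with e | e
  · rw [(pow_eq_zero_iff two_ne_zero).1 ((mul_eq_zero.1 e).resolve_left h3)] at e6
    exact h2 (by linear_combination -(1 + i) * e6 + (i ^ 2 + i - 1) * hi)
  · rw [e] at e3
    exact pow_ne_zero 3 h2 (by linear_combination -e3)

end Pool.Agent.H.MP_a1ab69_an
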