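import Pool.Agent.H.MP_a1ab69_an.A

set_option autoImplicit false
open Finset

namespace Pool.Agent.H.MP_a1ab69_an

variable {F : Type} [Field F]

lemma Pn.congr {n : ℕ} {a a' : F} {f g : F → F} (h : Pn n a f) (e : a = a') (e' : ∀ t, f t = g t) :
    Pn n a' g := e ▸ funext e' ▸ h

def e4 : V F := ![0, 0, 0, 0, 1]

lemma pc (y v : V F) (i : Fin 5) : Pn 1 (v i) fun t => (y + t • v) i := Pn.lin (y i) (v i)

lemma pL (u y v : V F) (c : F) : Pn 1 (b u v) fun t => b u (y + t • v) - c :=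
  (Pn.lin (b u y - c) (b u v)).congr rfl fun t => by simp [b]; ring

lemma pQ (y v : V F) : Pn 2 (b v v) fun t => b (y + t • v) (y + t • v) :=
  ((((pc y v 0).mul (pc y v 0)).add ((pc y v 1).mul (pc y v 1))).add ((pc y v 2).mul (pc y v 2))).sub
    ((pc y v 3).mul (pc y v 3))

lemma pP (y v : V F) : Pn 3 (P v) fun t => P (y + t • v) :=
  (((pc y v 0).pow 3).add ((pc y v 1).pow 3)).add ((pc y v 2).pow 3)

lemma pC (y : V F) : Pn 3 1 fun t => (y + t • e4 : V F) 4 ^ 3 - P (y + t • e4) :=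
  (((pc y e4 4).pow 3).sub (pP y e4)).congr (by simp [e4, P]) fun _ => rfl

lemma be (u y : V F) (t : F) : b u (y + t • e4) = b u y := by simp [b, e4]
lemma be' (y : V F) (t : F) : b (y + t • e4) (y + t • e4) = b y y := by simp [b, e4]
lemma bl (u y v : V F) (t : F) : b u (y + t • v) = b u y + t * b u v := by simp [b]; ring

variable [Fintype F] [DecidableEq F]

def HH (F : Type) [Field F] [Fintype F] [DecidableEq F] : Finset (V F) :=
  {x | b x x = 0 ∧ P x = x 4 ^ 3}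

lemma mH {x : V F} : x ∈ HH F ↔ b x x = 0 ∧ P x = x 4 ^ 3 := by simp [HH]

lemma step {p r : V F → Prop} [DecidablePred p] [DecidablePred r] (v : V F) {D K n : ℕ} {a : F}
    (f : V F → F) (ha : a ≠ 0) (hA : #{y | p y} ≤ K * Fintype.card F ^ (n + 1))
    (inv : ∀ y (t : F), r y → p (y + t • v)) (hf : ∀ y, Pn D a fun t => f (y + t • v))
    (hr : ∀ y, r y → f y = 0) : #{y | r y} ≤ D * K * Fintype.card F ^ n :=
  line' v hA (fun y hy t => by simpa using inv y t (mem_filter.1 hy).2)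
    fun y _ => (hf y).card ha fun _ ht => hr _ (mem_filter.1 ht).2

omit [Field F] [DecidableEq F] in
lemma c0 : #{_y : V F | True} ≤ 1 * Fintype.card F ^ (4 + 1) := by simp

lemma c1 {u : V F} (hu : ¬ Z u) (c : F) : #{y | b u y = c} ≤ 1 * 1 * Fintype.card F ^ (3 + 1) := by
  obtain ⟨v, hv⟩ := perp1 hu
  exact step v (fun y => b u y - c) hv c0 (fun _ _ _ => trivial) (fun y => pL u y v c)
    fun y => sub_eq_zero.2

lemma cH : #(HH F) ≤ 6 * Fintype.card F ^ 3 :=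
  step (p := fun y => b y y = 0) (K := 2) e4 (fun y => y 4 ^ 3 - P y) one_ne_zero
    (step ![0, 0, 0, 1, 0] (fun y => b y y) (by simp [b]) c0 (fun _ _ _ => trivial)
      (fun y => pQ y _) fun _ => id) (fun y t h => (be' y t).trans h.1) pC
    fun _ h => sub_eq_zero.2 h.2.symm

lemma pairG (h2 : (2 : F) ≠ 0) {u : V F} (hu : ¬ Z u) (c : F) :
    #{y | b u y = c ∧ y ∈ HH F} ≤ 6 * Fintype.card F ^ 2 := by
  obtain ⟨v, h1, hv⟩ := perp2 h2 hu
  exact step (p := fun y => b u y = c ∧ b y y = 0) (K := 2) e4 (fun y => y 4 ^ 3 - P y) one_ne_zero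
    (step v (fun y => b y y) hv (c1 hu c) (fun y t h => by rw [bl, h1, h.1]; simp)
      (fun y => pQ y _) fun _ h => h.2)
    (fun y t h => ⟨(be u y t).trans h.1, (be' y t).trans (mH.1 h.2).1⟩) pC
    fun _ h => sub_eq_zero.2 (mH.1 h.2).2.symm

lemma dif (h2 : (2 : F) ≠ 0) {y u : V F} (h : y ∈ HH F) (h' : y + u ∈ HH F) : b u y = -b u u / 2 := by
  have a1 := (mH.1 h).1
  have a2 := (mH.1 h').1
  simp only [b, Pi.add_apply] at a1 a2 ⊢
  field_simp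
  linear_combination a2 - a1

lemma pair (h2 : (2 : F) ≠ 0) {u : V F} (hu : ¬ Z u) :
    #{y | y ∈ HH F ∧ y + u ∈ HH F} ≤ 6 * Fintype.card F ^ 2 :=
  (card_le_card (monotone_filter_right _ fun _ _ h => ⟨dif h2 h.1 h.2, h.1⟩)).trans (pairG h2 hu _)

lemma triple (hq : 6 < Fintype.card F) (h2 : (2 : F) ≠ 0) (h3 : (3 : F) ≠ 0) {u w : V F} (hu : ¬ Z u)
    (hw : ∀ a : F, ¬ Z (w - a • u)) :
    #{y | y ∈ HH F ∧ y + u ∈ HH F ∧ y + w ∈ HH F} ≤ 18 * Fintype.card F := by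
  obtain ⟨⟨v, a1, a2⟩, a3⟩ := perp3 h2 hu hw
  have A2 := step (r := fun y => b u y = -b u u / 2 ∧ b w y = -b w w / 2) v
    (fun y => b w y - -b w w / 2) a2 (c1 hu (-b u u / 2)) (fun y t h => by rw [bl, a1, h.1]; simp)
    (fun y => pL w y v _) fun y h => sub_eq_zero.2 h.2
  rw [← pow_one (Fintype.card F)]
  rcases a3 with ⟨v, b1, b2, b3⟩ | ⟨b1, b2, b3⟩
  · refine (step (p := fun y => (b u y = -b u u / 2 ∧ b w y = -b w w / 2) ∧ b y y = 0) (K := 2) e4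
      (fun y => y 4 ^ 3 - P y) one_ne_zero (step v (fun y => b y y) b3 A2 (fun y t h => by
        rw [bl, bl, b1, b2, h.1.1, h.1.2]; simp) (fun y => pQ y _) fun _ h => h.2)
      (fun y t h => ⟨⟨(be u y t).trans (dif h2 h.1 h.2.1), (be w y t).trans (dif h2 h.1 h.2.2)⟩,
        (be' y t).trans (mH.1 h.1).1⟩) pC fun _ h => sub_eq_zero.2 (mH.1 h.1).2.symm).trans
      (Nat.mul_le_mul_right _ (by norm_num))
  obtain ⟨v, d1, d2, d3⟩ := star hq h2 h3 hu hw b1 b2 b3 (u 4)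
  obtain ⟨δ, hδ⟩ : ∃ δ : V F → F, ∀ y, δ y = 3 * (u 0 * y 0 ^ 2 + u 1 * y 1 ^ 2 + u 2 * y 2 ^ 2) +
    (3 * (u 0 ^ 2 * y 0 + u 1 ^ 2 * y 1 + u 2 ^ 2 * y 2) + P u) := ⟨_, fun _ => rfl⟩
  have pδ : ∀ y, Pn 2 (3 * (u 0 * v 0 ^ 2 + u 1 * v 1 ^ 2 + u 2 * v 2 ^ 2)) fun t => δ (y + t • v) :=
    fun y => (((((((pc y v 0).pow 2).cm (u 0)).add (((pc y v 1).pow 2).cm (u 1))).add
      (((pc y v 2).pow 2).cm (u 2))).cm 3).add (((((((pc y v 0).cm (u 0 ^ 2)).add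
      ((pc y v 1).cm (u 1 ^ 2))).add ((pc y v 2).cm (u 2 ^ 2))).cm 3).add
      (Pn.const 0 (P u))).up)).congr (add_zero _) fun t => (hδ _).symm
  refine step (p := fun y => (b u y = -b u u / 2 ∧ b w y = -b w w / 2) ∧
    (u 4 ^ 3 - δ y) ^ 3 + 27 * u 4 ^ 3 * P y ^ 2 + 27 * u 4 ^ 3 * (δ y * P y) = 0) (K := 6) e4
    (fun y => y 4 ^ 3 - P y) one_ne_zero (step v _ (a := 27 * (u 4 ^ 3 * P v ^ 2 -
      (u 0 * v 0 ^ 2 + u 1 * v 1 ^ 2 + u 2 * v 2 ^ 2) ^ 3)) (mul_ne_zero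
      (by rw [show (27 : F) = 3 ^ 3 by norm_num]; exact pow_ne_zero _ h3) (sub_ne_zero.2 d3)) A2
      (fun y t h => by rw [bl, bl, d1, d2, h.1.1, h.1.2]; simp)
      (fun y => ((((((Pn.const 1 (u 4 ^ 3)).sub (pδ y)).pow 3).add (((pP y v).pow 2).cm
        (27 * u 4 ^ 3))).add ((((pδ y).mul (pP y v)).cm (27 * u 4 ^ 3)).up)).congr (by ring)
        fun _ => rfl)) fun _ h => h.2)
    (fun y t h => ⟨⟨(be u y t).trans (dif h2 h.1 h.2.1), (be w y t).trans (dif h2 h.1 h.2.2)⟩, ?_⟩)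
    pC fun _ h => sub_eq_zero.2 (mH.1 h.1).2.symm
  have k1 := (mH.1 h.1).2
  have k2 := (mH.1 h.2.1).2
  rw [show P (y + t • e4) = y 4 ^ 3 by rw [← k1]; simp [P, e4],
    show δ (y + t • e4) = (y 4 + u 4) ^ 3 - y 4 ^ 3 by
      rw [← k1, ← Pi.add_apply y u 4, ← k2, hδ]; simp [P, e4]; ring]
  ring

lemma hyp (hq : 6 < Fintype.card F) (h2 : (2 : F) ≠ 0) (h3 : (3 : F) ≠ 0) (hi : IsSquare (-1 : F))
    {m : V F} (hm : m ≠ 0) : #{y ∈ HH F | m ⬝ᵥ y = 0} ≤ 12 * Fintype.card F ^ 2 := by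
  rcases eq_or_ne (m 4) 0 with m4 | m4
  · refine le_trans (card_le_card fun y hy => ?_) ((pairG h2 (u := ![m 0, m 1, m 2, -m 3, 0])
      (fun z => hm ?_) 0).trans (Nat.mul_le_mul_right _ (by norm_num)))
    · simp only [mem_filter, dotProduct, Fin.sum_univ_five, m4] at hy
      simpa [b, hy.1] using hy.2
    · simp only [Z] at z
      ext i
      fin_cases i <;> simp_all
  obtain ⟨i, hi⟩ := hi
  obtain ⟨μ, hμ⟩ : ∃ μ, μ = -m 3 / m 4 := ⟨_, rfl⟩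
  obtain ⟨v0, v1, v2, a1, a2⟩ := hyper hq h2 h3 hi (-m 0 / m 4) (-m 1 / m 4) (-m 2 / m 4)
  obtain ⟨l, hl⟩ : ∃ l : V F → F, ∀ y, l y = -m 0 / m 4 * y 0 + -m 1 / m 4 * y 1 + -m 2 / m 4 * y 2 :=
    ⟨_, fun _ => rfl⟩
  obtain ⟨s, hs⟩ : ∃ s : V F → F, ∀ y, s y = y 0 ^ 2 + y 1 ^ 2 + y 2 ^ 2 := ⟨_, fun _ => rfl⟩
  obtain ⟨v, hv⟩ : ∃ v : V F, v = ![v0, v1, v2, 0, -m 0 / m 4 * v0 + -m 1 / m 4 * v1 + -m 2 / m 4 * v2] :=
    ⟨_, rfl⟩
  have pl : ∀ y, Pn 1 (l v) fun t => l (y + t • v) := fun y =>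
    ((((pc y v 0).cm _).add ((pc y v 1).cm _)).add ((pc y v 2).cm _)).congr (hl v).symm
      fun _ => (hl _).symm
  have ps : ∀ y, Pn 2 0 fun t => s (y + t • v) := fun y =>
    ((((pc y v 0).pow 2).add ((pc y v 1).pow 2)).add ((pc y v 2).pow 2)).congr (by simpa [hv] using a1)
      fun _ => (hs _).symm
  have A1 := step (r := fun y => y 4 = l y + μ * y 3) e4 (fun y => y 4 - (l y + μ * y 3)) one_ne_zero
    c0 (fun _ _ _ => trivial) (fun y => (Pn.lin (y 4 - (l y + μ * y 3)) 1).congr rfl fun t => by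
      simp [hl, e4, -Matrix.add_cons]; ring) fun _ => sub_eq_zero.2
  have A2 := step (r := fun y => y 4 = l y + μ * y 3 ∧ (l y ^ 3 + 3 * μ ^ 2 * (l y * s y) - P y) ^ 2 -
    μ ^ 2 * (s y * (3 * l y ^ 2 + μ ^ 2 * s y) ^ 2) = 0) v _ (a := (l v ^ 3 - P v) ^ 2)
    (pow_ne_zero _ (sub_ne_zero.2 (by simpa [hl, hv, P] using a2))) A1
    (fun y t h => by simp [h.1, hl, hv, -Matrix.add_cons]; ring)
    (fun y => (((((((pl y).pow 3).add (((pl y).mul (ps y)).cm (3 * μ ^ 2))).sub (pP y v)).pow 2).sub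
      (((ps y).mul (((((pl y).pow 2).cm 3).add ((ps y).cm (μ ^ 2))).pow 2)).cm (μ ^ 2))).congr
      (by ring) fun _ => rfl)) fun _ h => h.2
  refine le_trans (card_le_card fun y hy => ?_) (step (r := fun y => y ∈ HH F ∧ m ⬝ᵥ y = 0)
    ![0, 0, 0, 1, μ] (fun y => b y y) (by simp [b]) A2 (fun y t h => ?_) (fun y => pQ y _)
    fun y h => (mH.1 h.1).1)
  · simpa using hy
  obtain ⟨k1, k2⟩ := mH.1 h.1
  have k3 : y 4 = l y + μ * y 3 := by
    have := h.2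
    simp only [dotProduct, Fin.sum_univ_five] at this
    rw [hl, hμ]
    field_simp
    linear_combination this
  rw [show l (y + t • ![0, 0, 0, 1, μ]) = l y by simp [hl, -Matrix.add_cons],
    show s (y + t • ![0, 0, 0, 1, μ]) = y 3 ^ 2 by
      simp [hs, b, -Matrix.add_cons] at k1 ⊢; linear_combination k1,
    show P (y + t • ![0, 0, 0, 1, μ]) = (l y + μ * y 3) ^ 3 by rw [← k3, ← k2]; simp [P, -Matrix.add_cons]]
  exact ⟨by simp [k3, -Matrix.add_cons]; ring, by ring⟩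

open Classical in
lemma fib (y : V F) : #{w ∈ HH F | Z (w - y)} ≤ 3 := by
  refine le_trans (card_le_card_of_injOn (fun w => w 4) (fun w hw => ?_) fun w hw w' hw' e => ?_)
    ((((Pn.lin (0 : F) 1).pow 3).sub (Pn.const 2 (P y))).card (by simp)
    (P := fun t => t ^ 3 = P y) fun t ht => by simp [ht])
  · simp only [coe_filter, Set.mem_ofPred_eq, mH, Z, Pi.sub_apply, sub_eq_zero] at hw
    refine mem_coe.2 (mem_filter.2 ⟨mem_univ _, ?_⟩)
    rw [← hw.1.2, P, P, hw.2.1, hw.2.2.1, hw.2.2.2.1]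
  · simp only [coe_filter, Set.mem_ofPred_eq, Z, Pi.sub_apply, sub_eq_zero] at hw hw'
    ext i
    fin_cases i <;> simp_all

open Classical in
lemma fib' (y u : V F) : #{w ∈ HH F | ∃ a : F, Z (w - y - a • u)} ≤ 3 * Fintype.card F := by
  refine le_trans (card_le_card (t := univ.biUnion fun a : F => {w ∈ HH F | Z (w - (y + a • u))})
    fun w hw => ?_) ((card_biUnion_le_card_mul _ _ 3 fun a _ => fib _).trans_eq (mul_comm _ _))
  simpa [sub_sub] using hw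

end Pool.Agent.H.MP_a1ab69_an
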