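import Pool.Agent.H.MP_a1ab69_an.B

set_option autoImplicit false
open Finset ComplexConjugate

namespace Pool.Agent.H.MP_a1ab69_an

variable {F : Type} [Field F] [Fintype F] [DecidableEq F] {ψ : AddChar F ℂ}

omit [DecidableEq F] in
lemma pars {G X : Type} [Fintype G] (A : Finset X) (φ : G → X → F) (g : X → ℂ) (R : X → X → Prop)
    [DecidableRel R] (N : ℕ) (hg : ∀ x, ‖g x‖ ≤ 1)
    (o : ∀ x x', ∑ m, ψ (φ m x - φ m x') = if R x x' then (N : ℂ) else 0) :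
    ∑ m, ‖∑ x ∈ A, g x * ψ (φ m x)‖ ^ 2 ≤ N * ∑ x ∈ A, (#{x' ∈ A | R x x'} : ℝ) := by
  have e : ((∑ m, ‖∑ x ∈ A, g x * ψ (φ m x)‖ ^ 2 : ℝ) : ℂ) =
      ∑ x ∈ A, ∑ x' ∈ A, g x * conj (g x') * if R x x' then (N : ℂ) else 0 := by
    simp only [Complex.ofReal_sum, Complex.ofReal_pow, ← Complex.mul_conj', map_sum, sum_mul_sum]
    simp only [← o, mul_sum]
    rw [sum_comm]
    refine sum_congr rfl fun x _ => sum_comm.trans (sum_congr rfl fun x' _ => sum_congr rfl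
      fun m _ => ?_)
    rw [map_mul, sub_eq_add_neg, AddChar.map_add_eq_mul, AddChar.map_neg_eq_conj]
    ring
  refine ((le_abs_self _).trans_eq (Complex.norm_real _ ▸ congrArg norm e :)).trans
    ((norm_sum_le _ _).trans ?_)
  rw [mul_sum]
  refine sum_le_sum fun x _ => (norm_sum_le _ _).trans ?_
  rw [card_filter, Nat.cast_sum, mul_sum]
  refine sum_le_sum fun x' _ => ?_
  split_ifs
  · rw [norm_mul, norm_mul, RCLike.norm_conj, Complex.norm_natCast, Nat.cast_one, mul_one]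
    exact mul_le_of_le_one_left (by positivity) (mul_le_one₀ (hg _) (norm_nonneg _) (hg _))
  · simp

lemma orth (hψ : ψ.IsPrimitive) (x : V F) :
    ∑ m : V F, ψ (m ⬝ᵥ x) = if x = 0 then ((Fintype.card F ^ 5 : ℕ) : ℂ) else 0 := by
  split_ifs with h
  · simp [h]
  obtain ⟨i, hi⟩ := Function.ne_iff.1 h
  have := prod_univ_sum (fun _ : Fin 5 => (univ : Finset F)) fun i j => ψ (j * x i)
  rw [Fintype.piFinset_univ, prod_eq_zero (mem_univ i) (by
    rw [AddChar.sum_mulShift _ hψ, if_neg (show ¬ x i = 0 from hi), Nat.cast_zero])] at this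
  simpa [dotProduct, Fin.sum_univ_five, Fin.prod_univ_five, AddChar.map_add_eq_mul] using this.symm

noncomputable def S (ψ : AddChar F ℂ) (A : Finset (V F)) (m : V F) : ℂ := ∑ a ∈ A, ψ (m ⬝ᵥ a)

def I (E G : Finset (V F)) : ℕ := ∑ e ∈ E, #{f ∈ G | f - e ∈ HH F}

lemma parS (hψ : ψ.IsPrimitive) (A : Finset (V F)) :
    ∑ m, ‖S ψ A m‖ ^ 2 ≤ (Fintype.card F : ℝ) ^ 5 * #A := by
  have := pars (ψ := ψ) A (fun m x => m ⬝ᵥ x) (fun _ => 1) (· = ·) (Fintype.card F ^ 5) (by simp)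
    fun x x' => by simp only [← dotProduct_sub, orth hψ, sub_eq_zero]
  simp only [one_mul, Nat.cast_pow] at this
  refine this.trans (mul_le_mul_of_nonneg_left ?_ (by positivity))
  rw [card_eq_sum_ones, Nat.cast_sum]
  exact sum_le_sum fun x _ => Nat.cast_le.2 (card_le_one.2 fun a ha b hb =>
    (mem_filter.1 ha).2.symm.trans (mem_filter.1 hb).2)

lemma smulH {t : F} {x : V F} (h : x ∈ HH F) : t • x ∈ HH F := by
  simp only [mH, b, P, Pi.smul_apply, smul_eq_mul] at h ⊢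
  exact ⟨by linear_combination t ^ 2 * h.1, by linear_combination t ^ 3 * h.2⟩

lemma hat (hψ : ψ.IsPrimitive) (hq : 6 < Fintype.card F) (h2 : (2 : F) ≠ 0) (h3 : (3 : F) ≠ 0)
    (hi : IsSquare (-1 : F)) {m : V F} (hm : m ≠ 0) :
    ‖S ψ (HH F) m‖ ≤ 36 * (Fintype.card F : ℝ) ^ 2 := by
  have a1 : ∀ t ∈ (univ : Finset F).erase 0, ∑ h ∈ HH F, ψ (t * (m ⬝ᵥ h)) = S ψ (HH F) m :=
    fun t ht => sum_nbij' (fun h => t • h) (fun h => t⁻¹ • h) (fun _ => smulH) (fun _ => smulH)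
      (by simp [ne_of_mem_erase ht]) (by simp [ne_of_mem_erase ht]) (by simp)
  have a2 : ∑ t, ∑ h ∈ HH F, ψ (t * (m ⬝ᵥ h)) = Fintype.card F * #{y ∈ HH F | m ⬝ᵥ y = 0} := by
    rw [sum_comm]
    simp only [AddChar.sum_mulShift _ hψ, card_filter, Nat.cast_sum, mul_sum]
    exact sum_congr rfl fun _ _ => by split_ifs <;> simp
  rw [← add_sum_erase _ _ (mem_univ 0), sum_congr rfl a1] at a2
  simp only [zero_mul, AddChar.map_zero_eq_one, sum_const, card_erase_of_mem (mem_univ _), card_univ,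
    nsmul_eq_mul, mul_one] at a2
  have a3 := congrArg norm (eq_sub_of_add_eq' a2)
  have a4 := norm_sub_le (Fintype.card F * #{y ∈ HH F | m ⬝ᵥ y = 0} : ℂ) (#(HH F))
  rw [← a3, norm_mul, norm_mul, Complex.norm_natCast, Complex.norm_natCast, Complex.norm_natCast,
    Complex.norm_natCast, Nat.cast_pred Fintype.card_pos] at a4
  have a5 : (#{y ∈ HH F | m ⬝ᵥ y = 0} : ℝ) ≤ 12 * (Fintype.card F : ℝ) ^ 2 := by
    exact_mod_cast hyp hq h2 h3 hi hm
  have a6 : (#(HH F) : ℝ) ≤ 6 * (Fintype.card F : ℝ) ^ 3 := by exact_mod_cast cH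
  have a7 : (6 : ℝ) < Fintype.card F := by exact_mod_cast hq
  generalize (Fintype.card F : ℝ) = q at *
  refine le_of_mul_le_mul_left (a4.trans ?_) (by linarith)
  nlinarith [mul_le_mul_of_nonneg_left a5 (by linarith : 0 ≤ q), mul_nonneg (sq_nonneg q)
    (by linarith : 0 ≤ q - 2)]

lemma spec (hψ : ψ.IsPrimitive) (hq : 6 < Fintype.card F) (h2 : (2 : F) ≠ 0) (h3 : (3 : F) ≠ 0)
    (hi : IsSquare (-1 : F)) (E G : Finset (V F)) :
    (Fintype.card F : ℝ) ^ 2 * I E G ≤ 12 * #E * #G ∨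
      (I E G : ℝ) ^ 2 ≤ 72 ^ 2 * (Fintype.card F : ℝ) ^ 4 * #E * #G := by
  have a1 : ∑ m, S ψ E m * S ψ (HH F) m * conj (S ψ G m) = (Fintype.card F ^ 5 * I E G : ℕ) := by
    simp only [S, map_sum, sum_mul, mul_sum, ← AddChar.map_neg_eq_conj, ← AddChar.map_add_eq_mul,
      ← dotProduct_neg, ← dotProduct_add, I, card_filter, Nat.cast_sum]
    rw [sum_comm, sum_comm (s := E)]
    refine sum_congr rfl fun f _ => ?_
    rw [sum_comm, sum_congr rfl fun _ _ => sum_comm, sum_comm]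
    refine sum_congr rfl fun e _ => ?_
    simp only [orth hψ, show ∀ h, e + h + -f = 0 ↔ h = f - e from fun h => by
      rw [eq_sub_iff_add_eq', add_neg_eq_zero], sum_ite_eq']
    split_ifs <;> simp
  have a2 := congrArg norm a1
  rw [← add_sum_erase _ _ (mem_univ 0), Complex.norm_natCast] at a2
  obtain ⟨T, hT⟩ : ∃ T, T = ∑ m, ‖S ψ E m‖ * ‖S ψ G m‖ := ⟨_, rfl⟩
  have a3 : T ^ 2 ≤ _ := hT ▸ (sum_mul_sq_le_sq_mul_sq _ _ _).trans
    (mul_le_mul (parS hψ E) (parS hψ G) (by positivity) (by positivity))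
  have a4 := a2.ge.trans ((norm_add_le _ _).trans (add_le_add
    (show _ ≤ 6 * (Fintype.card F : ℝ) ^ 3 * #E * #G by
      have : (#(HH F) : ℝ) ≤ 6 * (Fintype.card F : ℝ) ^ 3 := by exact_mod_cast cH
      simp only [S, zero_dotProduct, AddChar.map_zero_eq_one, sum_const, nsmul_eq_mul, mul_one,
        norm_mul, RCLike.norm_conj, Complex.norm_natCast]
      rw [mul_comm (#E : ℝ)]
      gcongr)
    (show _ ≤ 36 * (Fintype.card F : ℝ) ^ 2 * T by
      rw [hT, mul_sum]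
      refine (norm_sum_le_of_le _ fun m hm => ?_).trans (sum_le_sum_of_subset_of_nonneg
        (erase_subset 0 _) fun _ _ _ => by positivity)
      rw [norm_mul, norm_mul, RCLike.norm_conj, mul_comm ‖S ψ E m‖, mul_assoc]
      exact mul_le_mul_of_nonneg_right (hat hψ hq h2 h3 hi (ne_of_mem_erase hm)) (by positivity))))
  push_cast at a4
  have q0 : (0 : ℝ) < Fintype.card F := Nat.cast_pos.2 Fintype.card_pos
  generalize (Fintype.card F : ℝ) = q at *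
  rcases le_total (6 * q ^ 3 * #E * #G) (36 * q ^ 2 * T) with h | h
  · refine Or.inr (le_of_mul_le_mul_left ?_ (pow_pos q0 10))
    have := pow_le_pow_left₀ (by positivity) (show q ^ 5 * I E G ≤ 72 * q ^ 2 * T by linarith) 2
    nlinarith [mul_le_mul_of_nonneg_left a3 (by positivity : 0 ≤ 72 ^ 2 * q ^ 4)]
  · exact Or.inl (le_of_mul_le_mul_left (by linarith) (pow_pos q0 3))

noncomputable def W (ψ : AddChar F ℂ) (s t : F) : ℂ := ∑ y, ψ (s * y ^ 2 + t * y ^ 3)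

omit [DecidableEq F] in
lemma weyl (f : F → F) : ‖∑ y, ψ (f y)‖ ^ 2 ≤ ∑ h, ‖∑ y, ψ (f (y + h) - f y)‖ := by
  have e : ((‖∑ y, ψ (f y)‖ ^ 2 : ℝ) : ℂ) = ∑ h, ∑ y, ψ (f (y + h) - f y) := by
    rw [Complex.ofReal_pow, ← Complex.mul_conj', map_sum, mul_sum, sum_comm]
    refine sum_congr rfl fun y _ => ?_
    rw [sum_mul, ← Equiv.sum_comp (Equiv.addLeft y)]
    simp [sub_eq_add_neg, AddChar.map_add_eq_mul, AddChar.map_neg_eq_conj]
  exact ((le_abs_self _).trans_eq (Complex.norm_real _ ▸ congrArg norm e :)).trans (norm_sum_le _ _)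

lemma gauss (hψ : ψ.IsPrimitive) (h2 : (2 : F) ≠ 0) {a : F} (ha : a ≠ 0) (c d : F) :
    ‖∑ y, ψ (a * y ^ 2 + c * y + d)‖ ^ 2 ≤ Fintype.card F := by
  refine (weyl _).trans_eq ?_
  rw [sum_eq_single 0 (fun h _ h0 => ?_) (by simp)]
  · simp
  rw [sum_congr rfl (g := fun y => ψ (y * (2 * a * h)) * ψ (a * h ^ 2 + c * h)) fun y _ => by
    rw [← AddChar.map_add_eq_mul]; congr 1; ring, ← sum_mul, AddChar.sum_mulShift _ hψ,
    if_neg (by simp [h2, ha, h0])]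
  simp

lemma cub (hψ : ψ.IsPrimitive) (h2 : (2 : F) ≠ 0) (h3 : (3 : F) ≠ 0) {ρ : ℝ} (ρ1 : 1 ≤ ρ)
    (hρ : (Fintype.card F : ℝ) = ρ ^ 4) (s : F) {t : F} (ht : t ≠ 0) : ‖W ψ s t‖ ≤ 2 * ρ ^ 3 := by
  refine abs_le_of_sq_le_sq' ((weyl _).trans ?_) (by positivity) |>.2
  rw [← add_sum_erase _ _ (mem_univ 0)]
  refine (add_le_add (le_of_eq (by simp [hρ]) : _ ≤ ρ ^ 4) (sum_le_card_nsmul _ _ (ρ ^ 2)
    fun h hh => ?_)).trans ?_
  · refine abs_le_of_sq_le_sq' (le_of_eq_of_le ?_ ((gauss hψ h2 (a := 3 * t * h)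
      (by simp [h3, ht, ne_of_mem_erase hh]) (2 * s * h + 3 * t * h ^ 2) (s * h ^ 2 + t * h ^ 3)
      ).trans_eq (by rw [hρ]; ring))) (by positivity) |>.2
    congr 3
    ext y
    congr 1
    ring
  · have : (#((univ : Finset F).erase 0) : ℝ) ≤ ρ ^ 4 := hρ ▸ Nat.cast_le.2 (card_le_univ _)
    rw [nsmul_eq_mul]
    nlinarith [mul_le_mul_of_nonneg_right this (sq_nonneg ρ), pow_le_pow_right₀ ρ1 (by norm_num : 4 ≤ 6)]

lemma parW (hψ : ψ.IsPrimitive) (k : ℕ) (g : F → F) :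
    ∑ s, ‖∑ y, ψ (g y + s * y ^ (k + 1))‖ ^ 2 ≤ (k + 1) * (Fintype.card F : ℝ) ^ 2 := by
  have := pars (ψ := ψ) univ (fun s y => s * y ^ (k + 1)) (fun y => ψ (g y))
    (fun x x' => x ^ (k + 1) = x' ^ (k + 1)) (Fintype.card F) (by simp)
    fun x x' => by simp only [← mul_sub, AddChar.sum_mulShift _ hψ, sub_eq_zero]; simp
  simp only [← AddChar.map_add_eq_mul] at this
  refine this.trans ((mul_le_mul_of_nonneg_left (sum_le_card_nsmul _ _ (k + 1 : ℝ) fun x _ => ?_)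
    (by positivity)).trans_eq (by simp; ring))
  exact_mod_cast ((((Pn.lin (0 : F) 1).pow (k + 1)).congr rfl fun _ => rfl).sub
    ((mul_one (k + 1)).symm ▸ Pn.const k (x ^ (k + 1)))).card (by simp)
    (P := fun t => x ^ (k + 1) = t ^ (k + 1)) (fun t ht => by simp [ht]) |>.trans_eq (mul_one _)

lemma low (hψ : ψ.IsPrimitive) (h2 : (2 : F) ≠ 0) (h3 : (3 : F) ≠ 0) (hq : 44 ^ 4 ≤ Fintype.card F) :
    (Fintype.card F : ℝ) ^ 3 ≤ 2 * #(HH F) := by
  obtain ⟨ρ, ρ0, hρ⟩ : ∃ ρ : ℝ, 0 ≤ ρ ∧ (Fintype.card F : ℝ) = ρ ^ 4 :=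
    ⟨√√(Fintype.card F), by positivity, by
      rw [show 4 = 2 * 2 from rfl, pow_mul, Real.sq_sqrt (by positivity), Real.sq_sqrt (by positivity)]⟩
  have ρ1 : 44 ≤ ρ := le_of_pow_le_pow_left₀ four_ne_zero ρ0 (hρ ▸ by exact_mod_cast hq)
  have a1 : ∑ t, ∑ s, W ψ s t ^ 3 * W ψ (-s) 0 * W ψ 0 (-t) = (Fintype.card F ^ 2 * #(HH F) : ℕ) := by
    have : ∀ s t, W ψ s t ^ 3 * W ψ (-s) 0 * W ψ 0 (-t) =
        ∑ y : V F, ψ (s * b y y) * ψ (t * (P y - y 4 ^ 3)) := fun s t => by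
      have := prod_univ_sum (fun _ : Fin 5 => (univ : Finset F)) fun i y =>
        ψ (![s, s, s, -s, 0] i * y ^ 2 + ![t, t, t, 0, -t] i * y ^ 3)
      simp only [Fintype.piFinset_univ, Fin.prod_univ_five, ← AddChar.map_add_eq_mul] at this ⊢
      refine .trans (by simp [W, pow_succ]) (this.trans (sum_congr rfl fun y _ => ?_))
      congr 1
      simp [b, P]
      ring
    simp only [this]
    rw [sum_congr rfl fun _ _ => sum_comm, sum_comm, HH, card_filter, mul_sum, Nat.cast_sum]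
    refine sum_congr rfl fun y _ => ?_
    simp only [← sum_mul, ← mul_sum, AddChar.sum_mulShift _ hψ, sub_eq_zero]
    by_cases e : b y y = 0 <;> by_cases e' : P y = y 4 ^ 3 <;> simp [e, e', sq]
  have g : ∀ s, s ≠ 0 → ‖W ψ s 0‖ ≤ ρ ^ 2 := fun s hs => (abs_le_of_sq_le_sq'
    (by simpa [W, hρ, ← pow_mul] using gauss hψ h2 hs 0 0) (by positivity)).2
  have c := cub hψ h2 h3 (by linarith) hρ
  have p2 : ∀ t, ∑ s, ‖W ψ s t‖ ^ 2 ≤ 2 * ρ ^ 8 := fun t => by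
    simpa [W, hρ, ← pow_mul, add_comm, one_add_one_eq_two] using parW hψ 1 fun y => t * y ^ 3
  have p3 : ∑ t, ‖W ψ 0 (-t)‖ ^ 2 ≤ 3 * ρ ^ 8 := by
    refine (Equiv.sum_comp (Equiv.neg F) fun t => ‖W ψ 0 t‖ ^ 2).trans_le ?_
    have := parW hψ 2 fun _ => 0
    norm_num [hρ, ← pow_mul] at this
    simpa [W] using this
  have W0 : W ψ 0 0 = Fintype.card F := by simp [W]
  have b1 : ‖∑ s ∈ univ.erase 0, W ψ s 0 ^ 3 * W ψ (-s) 0 * W ψ 0 (-0)‖ ≤ ρ ^ 16 := by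
    refine (norm_sum_le_of_le _ (n := fun _ => (ρ ^ 2) ^ 3 * ρ ^ 2 * ρ ^ 4) fun s hs => ?_).trans ?_
    · rw [neg_zero, W0, norm_mul, norm_mul, norm_pow, Complex.norm_natCast, hρ]
      have := g s (ne_of_mem_erase hs)
      have := g (-s) (neg_ne_zero.2 (ne_of_mem_erase hs))
      gcongr
    · have : (#((univ : Finset F).erase 0) : ℝ) ≤ ρ ^ 4 := hρ ▸ Nat.cast_le.2 (card_le_univ _)
      rw [sum_const, nsmul_eq_mul]
      exact (mul_le_mul_of_nonneg_right this (by positivity)).trans_eq (by ring)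
  have b2 : ‖∑ t ∈ univ.erase 0, ∑ s, W ψ s t ^ 3 * W ψ (-s) 0 * W ψ 0 (-t)‖ ≤ 21 * ρ ^ 19 := by
    refine (norm_sum_le_of_le _ (n := fun t => 4 * ρ ^ 11 * ‖W ψ 0 (-t)‖ ^ 2 + 9 * ρ ^ 15)
      fun t ht => ?_).trans ((sum_le_sum_of_subset_of_nonneg (erase_subset 0 _)
      fun _ _ _ => by positivity).trans ?_)
    · have c := fun s => c s (ne_of_mem_erase ht)
      have : ‖∑ s, W ψ s t ^ 3 * W ψ (-s) 0‖ ≤ 12 * ρ ^ 13 := by
        rw [← add_sum_erase _ _ (mem_univ 0)]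
        refine (norm_add_le_of_le (r₁ := (2 * ρ ^ 3) ^ 3 * ρ ^ 4) ?_ ((norm_sum_le_of_le _
          (n := fun s => 2 * ρ ^ 3 * ρ ^ 2 * ‖W ψ s t‖ ^ 2) fun s hs => ?_).trans
          (sum_le_sum_of_subset_of_nonneg (erase_subset 0 _) fun _ _ _ => by positivity))).trans ?_
        · rw [neg_zero, W0, norm_mul, norm_pow, Complex.norm_natCast, hρ]
          have := c 0
          gcongr
        · rw [norm_mul, norm_pow, pow_succ', mul_right_comm]
          have := c s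
          have := g (-s) (neg_ne_zero.2 (ne_of_mem_erase hs))
          gcongr
        · rw [← mul_sum]
          linarith [mul_le_mul_of_nonneg_left (p2 t) (by positivity : 0 ≤ 2 * ρ ^ 3 * ρ ^ 2)]
      rw [← sum_mul, norm_mul]
      nlinarith [mul_le_mul_of_nonneg_right this (norm_nonneg (W ψ 0 (-t))),
        mul_nonneg (pow_nonneg ρ0 11) (sq_nonneg (2 * ‖W ψ 0 (-t)‖ - 3 * ρ ^ 2))]
    · rw [sum_add_distrib, ← mul_sum, sum_const, card_univ, nsmul_eq_mul, hρ]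
      linarith [mul_le_mul_of_nonneg_left p3 (by positivity : 0 ≤ 4 * ρ ^ 11)]
  rw [← add_sum_erase _ _ (mem_univ 0), ← add_sum_erase _ _ (mem_univ 0), add_assoc] at a1
  have a2 := (congrArg norm (eq_sub_of_add_eq a1)).trans_le ((norm_sub_le _ _).trans
    (add_le_add le_rfl (norm_add_le_of_le b1 b2)))
  simp only [neg_zero, W0, norm_mul, norm_pow, Complex.norm_natCast, Nat.cast_mul, Nat.cast_pow,
    hρ] at a2 ⊢
  refine le_of_mul_le_mul_left ?_ (by positivity : 0 < ρ ^ 8)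
  nlinarith [pow_le_pow_right₀ (by linarith : 1 ≤ ρ) (by norm_num : 16 ≤ 19),
    mul_le_mul_of_nonneg_left ρ1 (pow_nonneg ρ0 19)]

end Pool.Agent.H.MP_a1ab69_an
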