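import Pool.Agent.H.MP_a1ab69_an.C

set_option autoImplicit false
open Finset

namespace Pool.Agent.H.MP_a1ab69_an

lemma fibc {α β : Type} (s : Finset α) (t : Finset β) (R : α → β → Prop) [DecidableRel R] {K : ℕ}
    (h : ∀ a ∈ s, #{c ∈ t | R a c} ≤ K) : #{p ∈ s ×ˢ t | R p.1 p.2} ≤ #s * K := by
  rw [card_filter, sum_product]
  exact sum_le_card_nsmul _ _ _ fun a ha => (card_filter _ _).symm.trans_le (h a ha)

lemma dc {α X : Type} [Fintype α] (E : Finset α) (T : Finset X) (R : α → X → Prop) [DecidableRel R]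
    {K : ℕ} (h : ∀ x, #{e | R e x} ≤ K) : ∑ e ∈ E, #{x ∈ T | R e x} ≤ #T * K := by
  simp only [card_filter] at h ⊢
  rw [sum_comm]
  exact sum_le_card_nsmul _ _ _ fun x _ => (sum_le_sum_of_subset (subset_univ _)).trans (h x)

variable {F : Type} [Field F] [Fintype F] [DecidableEq F]

lemma I_symm (E G : Finset (V F)) : I E G = I G E := by
  have : ∀ x y : V F, x - y ∈ HH F → y - x ∈ HH F := fun x y h => by
    simpa using smulH (t := -1) h
  simp only [I, card_filter]
  rw [sum_comm]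
  exact sum_congr rfl fun _ _ => sum_congr rfl fun _ _ => if_congr ⟨this _ _, this _ _⟩ rfl rfl

lemma sh (G : Finset (V F)) (e : V F) (R R' : V F → Prop) [DecidablePred R] [DecidablePred R']
    (h : ∀ f, R f → R' (f - e)) : #{f ∈ {f ∈ G | f - e ∈ HH F} | R f} ≤ #{w ∈ HH F | R' w} :=
  card_le_card_of_injOn (· - e) (fun f hf => by
    simp only [coe_filter, Set.mem_ofPred_eq, mem_filter] at hf ⊢
    exact ⟨hf.1.2, h f hf.2⟩) fun _ _ _ _ => sub_left_injective.eq_iff.1

omit [DecidableEq F] in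
lemma sh' (f : V F) (R R' : V F → Prop) [DecidablePred R] [DecidablePred R']
    (h : ∀ e, R e → R' (f - e)) : #{e | R e} ≤ #{w | R' w} :=
  card_le_card_of_injOn (f - ·) (fun e he => by simpa using h e (by simpa using he))
    fun _ _ _ _ => sub_right_injective.eq_iff.1

lemma I0 (E G : Finset (V F)) : I E G ≤ #E * #G :=
  sum_le_card_nsmul _ _ _ fun _ _ => card_filter_le _ _

lemma I1 (E G : Finset (V F)) : I E G ≤ #E * (6 * Fintype.card F ^ 3) :=
  sum_le_card_nsmul _ _ _ fun e _ => le_trans (by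
    simpa using sh G e (fun _ => True) (fun _ => True) fun _ _ => trivial) cH

open Classical in
lemma z1 (G : Finset (V F)) (e : V F) : #{p ∈ {f ∈ G | f - e ∈ HH F} ×ˢ {f ∈ G | f - e ∈ HH F} |
    Z (p.2 - p.1)} ≤ #{f ∈ G | f - e ∈ HH F} * 3 :=
  fibc _ _ (fun a c => Z (c - a)) fun a _ =>
    (sh G e _ _ fun f hf => by rwa [sub_sub_sub_cancel_right]).trans (fib (a - e))

lemma I2 (h2 : (2 : F) ≠ 0) (E G : Finset (V F)) :
    I E G ≤ 6 * #E ∨ I E G ^ 2 ≤ 12 * Fintype.card F ^ 2 * #E * #G ^ 2 := by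
  classical
  have a1 : ∀ e, #{f ∈ G | f - e ∈ HH F} ^ 2 ≤ #{f ∈ G | f - e ∈ HH F} * 3 +
      #{p ∈ G ×ˢ G | ¬ Z (p.2 - p.1) ∧ p.1 - e ∈ HH F ∧ p.2 - e ∈ HH F} := fun e => by
    rw [sq, ← card_product, ← card_filter_add_card_filter_not (fun p => Z (p.2 - p.1))]
    exact add_le_add (z1 G e) (card_le_card fun p hp => by
      simp only [mem_filter, mem_product] at hp ⊢; tauto)
  have a2 := dc E (G ×ˢ G) (fun e p => ¬ Z (p.2 - p.1) ∧ p.1 - e ∈ HH F ∧ p.2 - e ∈ HH F)
    (K := 6 * Fintype.card F ^ 2) fun p => by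
      by_cases z : Z (p.2 - p.1)
      · simp [z]
      · exact (sh' p.1 _ _ fun e h => ⟨h.2.1, by simpa using h.2.2⟩).trans (pair h2 z)
  have a3 := sq_sum_le_card_mul_sum_sq.trans (Nat.mul_le_mul_left #E (sum_le_sum (s := E) fun e _ => a1 e))
  rw [sum_add_distrib, ← sum_mul, ← I] at a3
  rw [card_product] at a2
  have a4 := a3.trans (Nat.mul_le_mul_left _ (add_le_add le_rfl a2))
  refine or_iff_not_imp_left.2 fun h => ?_
  nlinarith [Nat.mul_le_mul_left (I E G) (not_le.1 h).le]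

lemma I3 (hq : 6 < Fintype.card F) (h2 : (2 : F) ≠ 0) (h3 : (3 : F) ≠ 0) (E G : Finset (V F)) :
    I E G ≤ 24 * Fintype.card F * #E ∨ I E G ^ 3 ≤ 288 * Fintype.card F * #E ^ 2 * #G ^ 3 := by
  classical
  obtain ⟨d, hd⟩ : ∃ d : V F → ℕ, ∀ e, d e = #{f ∈ G | f - e ∈ HH F} := ⟨_, fun _ => rfl⟩
  obtain ⟨g, hg⟩ : ∃ g : V F → ℕ, ∀ e, g e = #{p ∈ (G ×ˢ G) ×ˢ G | (¬ Z (p.1.2 - p.1.1) ∧
    ∀ a : F, ¬ Z (p.2 - p.1.1 - a • (p.1.2 - p.1.1))) ∧ p.1.1 - e ∈ HH F ∧ p.1.2 - e ∈ HH F ∧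
      p.2 - e ∈ HH F} := ⟨_, fun _ => rfl⟩
  have a1 : ∀ e, d e ^ 3 ≤ d e * 3 * d e + (d e * d e * (3 * Fintype.card F) + g e) := fun e => by
    rw [hd, hg, pow_three', ← card_product, ← card_product,
      ← card_filter_add_card_filter_not (fun p => Z (p.1.2 - p.1.1))]
    refine add_le_add ?_ ?_
    · rw [filter_product_left (fun p : V F × V F => Z (p.2 - p.1)), card_product]
      exact Nat.mul_le_mul_right _ (z1 G e)
    rw [← card_filter_add_card_filter_not (fun p : (V F × V F) × V F =>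
      ∃ a : F, Z (p.2 - p.1.1 - a • (p.1.2 - p.1.1)))]
    refine add_le_add ((card_le_card (monotone_filter_left _ (filter_subset _ _))).trans
      (fibc _ _ (fun (p : V F × V F) c => ∃ a : F, Z (c - p.1 - a • (p.2 - p.1))) fun p _ =>
        (sh G e _ _ fun f hf => by rwa [sub_sub_sub_cancel_right]).trans (fib' (p.1 - e) _)))
      (card_le_card fun p hp => ?_)
    simp only [mem_filter, mem_product, not_exists] at hp ⊢
    tauto
  have a2 := dc (E.filter fun e => 12 * Fintype.card F ≤ d e) ((G ×ˢ G) ×ˢ G)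
    (fun e p => (¬ Z (p.1.2 - p.1.1) ∧ ∀ a : F, ¬ Z (p.2 - p.1.1 - a • (p.1.2 - p.1.1))) ∧
      p.1.1 - e ∈ HH F ∧ p.1.2 - e ∈ HH F ∧ p.2 - e ∈ HH F) (K := 18 * Fintype.card F) fun p => by
      by_cases z : ¬ Z (p.1.2 - p.1.1) ∧ ∀ a : F, ¬ Z (p.2 - p.1.1 - a • (p.1.2 - p.1.1))
      · exact (sh' p.1.1 _ _ fun e h => ⟨h.2.1, by simpa using h.2.2⟩).trans (triple hq h2 h3 z.1 z.2)
      · simp [z]
  simp only [← hg, card_product] at a2
  have a3 := (pow_sum_le_card_mul_sum_pow (s := E.filter fun e => 12 * Fintype.card F ≤ d e) (f := d)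
    (fun _ _ => Nat.zero_le _) 2).trans (Nat.mul_le_mul (Nat.pow_le_pow_left (card_filter_le _ _) 2)
    (sum_le_sum (g := fun e => 2 * g e) fun e he => by
      show d e ^ 3 ≤ 2 * g e
      nlinarith [a1 e, Nat.mul_le_mul_left (d e * d e) (mem_filter.1 he).2,
        Nat.mul_le_mul_left (d e * d e) hq.le]))
  have a4 : I E G ≤ ∑ e ∈ E with 12 * Fintype.card F ≤ d e, d e + #E * (12 * Fintype.card F) := by
    simp only [I, ← hd]
    rw [← sum_filter_add_sum_filter_not E fun e => 12 * Fintype.card F ≤ d e]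
    exact add_le_add le_rfl ((sum_le_card_nsmul _ _ _ fun e he => (not_le.1 (mem_filter.1 he).2).le
      ).trans (Nat.mul_le_mul_right _ (card_filter_le _ _)))
  rw [← mul_sum] at a3
  have a5 := a3.trans (Nat.mul_le_mul_left _ (Nat.mul_le_mul_left 2 a2))
  refine or_iff_not_imp_left.2 fun h => ?_
  refine (Nat.pow_le_pow_left (show _ ≤ 2 * ∑ e ∈ E with 12 * Fintype.card F ≤ d e, d e by
    linarith [not_le.1 h]) 3).trans ?_
  rw [mul_pow]
  exact (Nat.mul_le_mul_left _ a5).trans_eq (by ring)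

lemma lg {x y : ℝ} (hx : 0 < x) (h : x ≤ y) : Real.log x ≤ Real.log y := Real.log_le_log hx h

theorem restr (hq : 6 < Fintype.card F) (h2 : (2 : F) ≠ 0) (h3 : (3 : F) ≠ 0)
    (hi : IsSquare (-1 : F)) (E G : Finset (V F)) :
    (I E G : ℝ) ≤ 6000 * Fintype.card F * ((#E : ℝ) ^ (7 / 10 : ℝ) * (#G : ℝ) ^ (7 / 10 : ℝ)) := by
  rcases Nat.eq_zero_or_pos (I E G) with h | h
  · rw [h, Nat.cast_zero]; positivity
  have b0 := I0 E G
  have E0 : 0 < #E := Nat.pos_of_mul_pos_right (h.trans_le b0)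
  have G0 : 0 < #G := Nat.pos_of_mul_pos_left (h.trans_le b0)
  have c1 : #E ≤ Fintype.card F ^ 5 := by simpa using card_le_univ E
  have c2 : #G ≤ Fintype.card F ^ 5 := by simpa using card_le_univ G
  have b1 := I1 E G
  have b1' := I_symm E G ▸ I1 G E
  have b2 := I2 h2 E G
  have b2' := I_symm E G ▸ I2 h2 G E
  have b3 := I3 hq h2 h3 E G
  have b3' := I_symm E G ▸ I3 hq h2 h3 G E
  have b4 := spec (AddChar.FiniteField.primitiveChar_to_Complex_isPrimitive F) hq h2 h3 hi E G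
  have q1 : 0 < Fintype.card F := Fintype.card_pos
  rify at *
  generalize (Fintype.card F : ℝ) = q at *
  generalize (I E G : ℝ) = i at *
  generalize (#E : ℝ) = x at *
  generalize (#G : ℝ) = y at *
  rw [← Real.log_le_log_iff h (by positivity)]
  have k : ∀ c : ℝ, 0 < c → c ≤ 6000 → Real.log c ≤ Real.log 6000 := fun c => lg
  have k0 := Real.log_nonneg (x := 6000) (by norm_num)
  have k1 := Real.log_nonneg (x := q) (by linarith)
  have k6 := k 6 (by norm_num) (by norm_num)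
  have k12 := k 12 (by norm_num) (by norm_num)
  have k24 := k 24 (by norm_num) (by norm_num)
  have k288 := k 288 (by norm_num) (by norm_num)
  have k72 := k (72 ^ 2) (by norm_num) (by norm_num)
  replace b0 := lg h b0
  replace b1 := lg h b1
  replace b1' := lg h b1'
  replace c1 := lg E0 c1
  replace c2 := lg G0 c2
  replace b2 := b2.imp (lg h) (lg (by positivity))
  replace b2' := b2'.imp (lg h) (lg (by positivity))
  replace b3 := b3.imp (lg h) (lg (by positivity))
  replace b3' := b3'.imp (lg h) (lg (by positivity))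
  replace b4 := b4.imp (lg (by positivity)) (lg (by positivity))
  simp (disch := positivity) only [Real.log_mul, Real.log_pow, Real.log_rpow, Nat.cast_ofNat] at *
  rcases b2 with b2 | b2 <;> rcases b2' with b2' | b2' <;> rcases b3 with b3 | b3 <;>
    rcases b3' with b3' | b3' <;> rcases b4 with b4 | b4 <;> linarith

end Pool.Agent.H.MP_a1ab69_an
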