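import Pool.Agent.H.MP_a1ab69_an.D

set_option autoImplicit false
open Finset

namespace Pool.Agent.H.MP_a1ab69_an

lemma dec : ∃ Γ : ℝ, 0 ≤ Γ ∧ ∀ (X : Type) [Fintype X] [DecidableEq X] (g : X → ℝ) (s : ℝ),
    (∀ y, 0 ≤ g y) → 16 / 11 ≤ s → ∑ y, g y ^ s ≤ Fintype.card X → ∃ (n : ℕ) (G : ℕ → Finset X),
      (∀ y, g y ≤ ∑ i ∈ range n, if y ∈ G i then (2 : ℝ) ^ (i + 1) else 0) ∧
      ∑ i ∈ range n, 2 ^ (i + 1) * (#(G i) : ℝ) ^ (7 / 10 : ℝ) ≤
        Γ * (Fintype.card X : ℝ) ^ (7 / 10 : ℝ) := by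
  obtain ⟨r, hr⟩ : ∃ r : ℝ, r = 2 ^ (-1 / 55 : ℝ) := ⟨_, rfl⟩
  have r0 : 0 ≤ r := by rw [hr]; positivity
  have r1 : r < 1 := hr ▸ Real.rpow_lt_one_of_one_lt_of_neg one_lt_two (by norm_num)
  refine ⟨4 * (1 - r)⁻¹, by have := sub_pos.2 r1; positivity, fun X _ _ g s g0 hs h => ?_⟩
  obtain ⟨n, hn⟩ := pow_unbounded_of_one_lt (∑ y, max (g y) 1) one_lt_two
  refine ⟨n, fun i => {y | 2 ^ i ≤ max (g y) 1}, fun y => ?_, ?_⟩
  · obtain ⟨j, h1, h2⟩ := exists_nat_pow_near (le_max_right (g y) 1) one_lt_two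
    have := (h1.trans (single_le_sum (f := fun y => max (g y) 1) (fun _ _ => by positivity)
      (mem_univ y))).trans_lt hn
    refine ((le_max_left _ _).trans h2.le).trans (le_of_eq_of_le
      (if_pos (mem_filter.2 ⟨mem_univ y, h1⟩ : y ∈ ({y | 2 ^ j ≤ max (g y) 1} : Finset X))).symm
      (single_le_sum
      (f := fun i => if y ∈ ({y | 2 ^ i ≤ max (g y) 1} : Finset X) then (2 : ℝ) ^ (i + 1) else 0)
      (fun i _ => by positivity) (mem_range.2 ((pow_lt_pow_iff_right₀ one_lt_two).1 this))))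
  refine (sum_le_sum (g := fun i => 4 * (Fintype.card X : ℝ) ^ (7 / 10 : ℝ) * r ^ i)
    fun i _ => ?_).trans ?_
  · have a1 : (#{y | 2 ^ i ≤ max (g y) 1} : ℝ) * ((2 : ℝ) ^ i) ^ (16 / 11 : ℝ) ≤
        2 * Fintype.card X := by
      rw [← nsmul_eq_mul]
      refine (card_nsmul_le_sum _ (fun y => g y ^ s + 1) _ fun y hy => ?_).trans
        ((sum_le_univ_sum_of_nonneg fun y => by have := g0 y; positivity).trans ?_)
      · refine (Real.rpow_le_rpow_of_exponent_le (one_le_pow₀ one_le_two) hs).trans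
          ((Real.rpow_le_rpow (by positivity) (mem_filter.1 hy).2 (by linarith)).trans ?_)
        have := Real.rpow_nonneg (g0 y) s
        rcases max_choice (g y) 1 with e | e <;> rw [e]
        · linarith
        · rw [Real.one_rpow]; linarith
      · rw [sum_add_distrib, sum_const, card_univ, nsmul_eq_mul]
        linarith
    have a2 := Real.rpow_le_rpow (by positivity) a1 (by norm_num : (0 : ℝ) ≤ 7 / 10)
    rw [Real.mul_rpow (by positivity) (by positivity), Real.mul_rpow (by positivity) (by positivity),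
      ← Real.rpow_mul (by positivity)] at a2
    have a3 : (2 : ℝ) ^ (7 / 10 : ℝ) ≤ 2 := (Real.rpow_le_rpow_of_exponent_le one_le_two
      (by norm_num)).trans_eq (Real.rpow_one 2)
    have a4 : ((2 : ℝ) ^ i) ^ (16 / 11 * (7 / 10) : ℝ) * r ^ i = 2 ^ i := by
      rw [hr, ← Real.rpow_pow_comm zero_le_two, ← mul_pow, ← Real.rpow_add two_pos]
      norm_num
    have a5 := mul_le_mul_of_nonneg_right (a2.trans (mul_le_mul_of_nonneg_right a3 (by positivity)))
      (pow_nonneg r0 i)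
    rw [mul_assoc, a4] at a5
    rw [pow_succ]
    linarith
  · rw [← mul_sum, mul_right_comm]
    exact mul_le_mul_of_nonneg_right (mul_le_mul_of_nonneg_left (sum_le_hasSum _
      (fun _ _ => pow_nonneg r0 _) (hasSum_geometric_of_lt_one r0 r1)) (by norm_num)) (by positivity)

theorem est : ∃ C : ℝ, ∀ (F : Type) [Field F] [Fintype F] [DecidableEq F], 44 ^ 4 < ringChar F →
    IsSquare (-1 : F) → ∀ f : V F → ℂ,
      ((∑ y, ‖((#(HH F) : ℂ))⁻¹ * ∑ x ∈ HH F, f (y - x)‖ ^ (3 : ℝ)) / Fintype.card F ^ 5) ^ (1 / 3 : ℝ)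
      ≤ C * ((∑ y, ‖f y‖ ^ (16 / 11 : ℝ)) / Fintype.card F ^ 5) ^ (11 / 16 : ℝ) := by
  obtain ⟨Γ, Γ0, hΓ⟩ := dec
  refine ⟨12000 * Γ ^ 2, fun F _ _ _ hc hi f => ?_⟩
  have hq : 44 ^ 4 ≤ Fintype.card F := hc.le.trans (Nat.le_of_dvd Fintype.card_pos
    ((ringChar.spec F _).1 (FiniteField.cast_card_eq_zero F)))
  have nz : ∀ n : ℕ, 0 < n → n < 4 → (n : F) ≠ 0 := fun n h0 h1 e => by
    have := Nat.le_of_dvd h0 ((ringChar.spec F _).1 e)
    omega
  have h2 : (2 : F) ≠ 0 := by exact_mod_cast nz 2 (by norm_num) (by norm_num)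
  have h3 : (3 : F) ≠ 0 := by exact_mod_cast nz 3 (by norm_num) (by norm_num)
  have q0 : (0 : ℝ) < Fintype.card F := Nat.cast_pos.2 Fintype.card_pos
  have lo := low (AddChar.FiniteField.primitiveChar_to_Complex_isPrimitive F) h2 h3 hq
  have H0 : (0 : ℝ) < #(HH F) := by linarith [pow_pos q0 3]
  have cV : (Fintype.card (V F) : ℝ) = Fintype.card F ^ 5 := by simp
  obtain ⟨h, hh⟩ : ∃ h : V F → ℝ, ∀ y, h y = ‖((#(HH F) : ℂ))⁻¹ * ∑ x ∈ HH F, f (y - x)‖ :=
    ⟨_, fun _ => rfl⟩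
  have h0 : ∀ y, 0 ≤ h y := fun y => hh y ▸ norm_nonneg _
  simp only [← hh]
  obtain ⟨μ, hμ⟩ : ∃ μ : ℝ, μ = ((∑ y, h y ^ (3 : ℝ)) / Fintype.card F ^ 5) ^ (1 / 3 : ℝ) := ⟨_, rfl⟩
  obtain ⟨a, ha⟩ : ∃ a : ℝ, a = ((∑ y, ‖f y‖ ^ (16 / 11 : ℝ)) / Fintype.card F ^ 5) ^ (11 / 16 : ℝ) :=
    ⟨_, rfl⟩
  have s0 : 0 ≤ ∑ y, h y ^ (3 : ℝ) := sum_nonneg fun y _ => Real.rpow_nonneg (h0 y) _
  have a0 : 0 ≤ a := by rw [ha]; positivity
  have μ0 : 0 ≤ μ := by rw [hμ]; positivity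
  have μ3 : μ ^ 3 * Fintype.card F ^ 5 = ∑ y, h y ^ 3 := by
    rw [hμ, ← Real.rpow_mul_natCast (by positivity)]
    norm_num
  have a1 : a ^ (16 / 11 : ℝ) * Fintype.card F ^ 5 = ∑ y, ‖f y‖ ^ (16 / 11 : ℝ) := by
    rw [ha, ← Real.rpow_mul (by positivity)]
    norm_num
  rw [← hμ, ← ha]
  rcases μ0.eq_or_lt with e | μ0
  · rw [← e]; positivity
  rcases a0.eq_or_lt with e | a0
  · rw [← e, Real.zero_rpow (by norm_num), zero_mul, eq_comm,
      sum_eq_zero_iff_of_nonneg fun _ _ => by positivity] at a1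
    have : ∀ y, f y = 0 := fun y => by simpa using a1 y (mem_univ _)
    simp [hh, this, μ0.ne', q0.ne'] at μ3
  obtain ⟨n, E, e1, e2⟩ := hΓ (V F) (fun y => (h y / μ) ^ 2) (3 / 2) (fun _ => sq_nonneg _)
    (by norm_num) (by
      rw [cV, sum_congr rfl (g := fun y => h y ^ 3 / μ ^ 3) fun y _ => by
        rw [← Real.rpow_natCast_mul (div_nonneg (h0 y) μ0.le), ← div_pow]; norm_num,
        ← sum_div, ← μ3, mul_div_cancel_left₀ _ (by positivity)])
  obtain ⟨m, G, g1, g2⟩ := hΓ (V F) (fun y => ‖f y‖ / a) (16 / 11) (fun _ => by positivity)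
    le_rfl (by
      simp only [Real.div_rpow (norm_nonneg _) a0.le]
      rw [cV, ← sum_div, ← a1, mul_div_cancel_left₀ _ (by positivity)])
  have b1 : ∀ y, #(HH F) * h y ≤ a * ∑ j ∈ range m, 2 ^ (j + 1) *
      ∑ x ∈ G j, if y - x ∈ HH F then (1 : ℝ) else 0 := fun y => by
    rw [hh, norm_mul, norm_inv, Complex.norm_natCast, mul_inv_cancel_left₀ H0.ne']
    refine (norm_sum_le_of_le _ fun x _ => (div_le_iff₀' a0).1 (g1 (y - x))).trans_eq ?_
    rw [← mul_sum, sum_comm]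
    congr 1
    refine sum_congr rfl fun j _ => ?_
    rw [← sum_filter, ← sum_filter, sum_const, sum_const, nsmul_eq_mul, nsmul_eq_mul, mul_one,
      mul_comm]
    congr 2
    exact card_nbij' (y - ·) (y - ·) (fun x hx => by simpa [and_comm] using hx)
      (fun x hx => by simpa [and_comm] using hx) (fun _ _ => by simp) fun _ _ => by simp
  have b2 : #(HH F) * (μ * Fintype.card F ^ 5) ≤ a * ∑ i ∈ range n, ∑ j ∈ range m,
      2 ^ (i + 1) * (2 ^ (j + 1) * (I (G j) (E i) : ℝ)) := by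
    calc _ = ∑ y, (h y / μ) ^ 2 * (#(HH F) * h y) := by
          rw [sum_congr rfl (g := fun y => h y ^ 3 * (#(HH F) / μ ^ 2)) fun _ _ => by ring,
            ← sum_mul, ← μ3]
          field_simp
      _ ≤ _ := sum_le_sum fun y _ => mul_le_mul (e1 y) (b1 y) (mul_nonneg H0.le (h0 y))
          (sum_nonneg fun _ _ => by positivity)
      _ = _ := by
          simp only [mul_left_comm _ a, ← mul_sum]
          congr 1
          simp only [sum_mul, ite_mul, zero_mul]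
          rw [sum_comm]
          refine sum_congr rfl fun i _ => ?_
          rw [← sum_filter, filter_mem_eq_inter, univ_inter, ← mul_sum, sum_comm]
          congr 1
          refine sum_congr rfl fun j _ => ?_
          rw [← mul_sum, sum_comm, I]
          simp only [card_filter, Nat.cast_sum, Nat.cast_ite, Nat.cast_one, Nat.cast_zero]
  have b3 : ∑ i ∈ range n, ∑ j ∈ range m, 2 ^ (i + 1) * (2 ^ (j + 1) * (I (G j) (E i) : ℝ)) ≤
      6000 * Fintype.card F * (Γ ^ 2 * Fintype.card F ^ 7) := by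
    refine (sum_le_sum fun i _ => sum_le_sum fun j _ => mul_le_mul_of_nonneg_left
      (mul_le_mul_of_nonneg_left (restr (by omega) h2 h3 hi _ _) (by positivity))
      (by positivity)).trans ?_
    refine le_of_eq_of_le ?_ (mul_le_mul_of_nonneg_left ((mul_le_mul e2 g2 (by positivity)
      (by positivity)).trans_eq ?_) (by positivity))
    · rw [sum_mul_sum]
      simp only [mul_sum]
      exact sum_congr rfl fun _ _ => sum_congr rfl fun _ _ => by ring
    · rw [mul_mul_mul_comm, ← sq, ← Real.rpow_add (by positivity), cV,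
        ← Real.rpow_natCast_mul q0.le]
      norm_num
  refine le_of_mul_le_mul_left ?_ (pow_pos q0 8)
  nlinarith [b2.trans (mul_le_mul_of_nonneg_left b3 a0.le), mul_le_mul_of_nonneg_right lo
    (by positivity : 0 ≤ μ * Fintype.card F ^ 5)]

end Pool.Agent.H.MP_a1ab69_an
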